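import Pool.Agent.Helper10.Qc.Stmts

set_option autoImplicit false

/-! (BOX) boxes. -/

namespace Pool.Agent.Helper10.Qc

open Pool.Agent.Helper19.Qh Pool.Agent.Helper19.Qc

theorem box_pos (x : ℝ) (h0 : 0 ≤ x) (h1 : x ≤ 1 / 2) :
    ∃ z : ℕ, z ∈ [9, 11, 13, 15] ∧ 0 ≤ 1024 * (x - ((z : ℝ) - 8) / 16) + 64 ∧
      1024 * (x - ((z : ℝ) - 8) / 16) + 64 ≤ 128 := by
  by_cases a1 : x ≤ 1 / 8
  · exact ⟨9, by simp, by push_cast; linarith, by push_cast; linarith⟩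
  by_cases a2 : x ≤ 2 / 8
  · exact ⟨11, by simp, by push_cast; linarith, by push_cast; linarith⟩
  by_cases a3 : x ≤ 3 / 8
  · exact ⟨13, by simp, by push_cast; linarith, by push_cast; linarith⟩
  · exact ⟨15, by simp, by push_cast; linarith, by push_cast; linarith⟩

theorem box_all (x : ℝ) (h0 : -(1 / 2) ≤ x) (h1 : x ≤ 1 / 2) :
    ∃ z : ℕ, z ∈ [1, 3, 5, 7, 9, 11, 13, 15] ∧ 0 ≤ 1024 * (x - ((z : ℝ) - 8) / 16) + 64 ∧
      1024 * (x - ((z : ℝ) - 8) / 16) + 64 ≤ 128 := by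
  by_cases a : 0 ≤ x
  · obtain ⟨z, hz, h⟩ := box_pos x a h1
    refine ⟨z, ?_, h⟩
    simp only [List.mem_cons, List.not_mem_nil, or_false] at hz ⊢
    omega
  by_cases a1 : x ≤ -(3 / 8)
  · exact ⟨1, by simp, by push_cast; linarith, by push_cast; linarith⟩
  by_cases a2 : x ≤ -(2 / 8)
  · exact ⟨3, by simp, by push_cast; linarith, by push_cast; linarith⟩
  by_cases a3 : x ≤ -(1 / 8)
  · exact ⟨5, by simp, by push_cast; linarith, by push_cast; linarith⟩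
  · exact ⟨7, by simp, by push_cast; linarith, by push_cast; linarith⟩

theorem st_BOX : ST_BOX := by
  intro p hp
  obtain ⟨h1, h2, h3, h4⟩ := hp
  have a1 := abs_nonneg (p.2 0).imI
  have a2 := abs_nonneg (p.2 0).imJ
  have a3 := abs_nonneg (p.2 0).imK
  have b1 := le_abs_self (p.2 0).imI
  have b2 := le_abs_self (p.2 0).imJ
  have b3 := le_abs_self (p.2 0).imK
  have b4 := neg_abs_le (p.2 0).imK
  obtain ⟨z0, m0, l0, u0⟩ := box_pos (p.2 0).re (by linarith) h1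
  obtain ⟨z1, m1, l1, u1⟩ := box_pos (p.2 0).imI (by linarith) (by linarith)
  obtain ⟨z2, m2, l2, u2⟩ := box_pos (p.2 0).imJ (by linarith) (by linarith)
  obtain ⟨z3, m3, l3, u3⟩ := box_all (p.2 0).imK (by linarith) (by linarith)
  refine ⟨z0, z1, z2, z3, m0, m1, m2, m3, ?_, ?_⟩
  · intro i
    fin_cases i
    · exact ⟨l0, u0⟩
    · exact ⟨l1, u1⟩
    · exact ⟨l2, u2⟩
    · exact ⟨l3, u3⟩
  · unfold zE eC
    ext
    · simp
      ring
    · simp
      ring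
    · simp
      ring
    · simp
      ring

end Pool.Agent.Helper10.Qc
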